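import Mathlib
import Pool.Agent.Helper522.Core
import Pool.Agent.Helper522.Machine
import Pool.Agent.Helper522.Sim
import Pool.Agent.Helper522.Contract

/-!
# Deciding contraction of a wreath recursion (MP_e16db3_al): no algorithm exists
-/

set_option autoImplicit false

namespace Pool.Agent.Results.MP_e16db3_al.Undecidable

open Pool.Agent.Helper522

/-- Sections at words for a wreath recursion `Φ : G → S_X ≀ G`:
`g|_∅ = g` and `g|_{vx} = (g|_v)|_x`. -/
def sect {X G : Type} [Group G] (Φ : G →* Wr X G) (g : G) (v : List X) : G :=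
  v.foldl (fun h x => (Φ h).f x) g

/-- The action on words: `g(x w) = g(x) g|_x(w)`. -/
def acts {X G : Type} [Group G] (Φ : G →* Wr X G) : G → List X → List X
  | _, [] => []
  | g, x :: w => (Φ g).p x :: acts Φ ((Φ g).f x) w

section

variable {X G : Type} [Group G] (Φ : G →* Wr X G)

theorem acts_one (w : List X) : acts Φ 1 w = w := by
  induction w with
  | nil => rfl
  | cons x w ih => simp [acts, ih]

theorem acts_mul (g h : G) (w : List X) : acts Φ (g * h) w = acts Φ g (acts Φ h w) := by
  induction w generalizing g h with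
  | nil => rfl
  | cons x w ih => simp [acts, ih]

/-- The kernel `K_Φ` of the action on words. -/
def ker : Subgroup G where
  carrier := {g | ∀ w, acts Φ g w = w}
  one_mem' := acts_one Φ
  mul_mem' := by
    intro a b ha hb w
    rw [acts_mul, hb w, ha w]
  inv_mem' := by
    intro a ha w
    have h := acts_mul Φ a⁻¹ a w
    rw [inv_mul_cancel, acts_one, ha w] at h
    exact h.symm

theorem mem_ker (g : G) : g ∈ ker Φ ↔ ∀ w, acts Φ g w = w := Iff.rfl

instance : (ker Φ).Normal where
  conj_mem := by
    intro a ha g w
    rw [acts_mul, acts_mul, ha, ← acts_mul, mul_inv_cancel, acts_one]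

theorem mem_ker_iff (g : G) : g ∈ ker Φ ↔ (Φ g).p = 1 ∧ ∀ x, (Φ g).f x ∈ ker Φ := by
  constructor
  · intro h
    constructor
    · ext x
      have := h [x]
      simpa [acts] using this
    · intro x w
      have := h (x :: w)
      simp only [acts, List.cons.injEq] at this
      exact this.2
  · rintro ⟨h1, h2⟩ w
    cases w with
    | nil => rfl
    | cons x w => simp only [acts, h1, h2 x w]; rfl

/-- Reduction of the sections modulo a normal subgroup. -/
def red (N : Subgroup G) [N.Normal] : Wr X G →* Wr X (G ⧸ N) where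
  toFun a := ⟨a.p, fun x => (a.f x : G ⧸ N)⟩
  map_one' := rfl
  map_mul' _ _ := rfl

/-- The wreath recursion induced by `Φ` on the group `G / K_Φ` defined by `Φ`: the class of `g`
has the permutation part of `g` and the classes of the sections of `g`. -/
def induced : G ⧸ ker Φ →* Wr X (G ⧸ ker Φ) :=
  QuotientGroup.lift (ker Φ) ((red (ker Φ)).comp Φ) (by
    intro g hg
    obtain ⟨h1, h2⟩ := (mem_ker_iff Φ g).1 hg
    ext x
    · exact congrArg (fun e : Equiv.Perm X => e x) h1
    · exact (QuotientGroup.eq_one_iff _).2 (h2 x))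

end

/-- A wreath recursion on a group `H` is contracting if there is a finite set `N` such that for
every `h` there is `n` with `h|_v ∈ N` for all words `v` of length at least `n`. -/
def Contracting {X H : Type} [Group H] (Φ : H →* Wr X H) : Prop :=
  ∃ N : Set H, N.Finite ∧ ∀ h : H, ∃ n : ℕ, ∀ v : List X, n ≤ v.length → sect Φ h v ∈ N

/-- The finite data of a wreath recursion on the free group with `m` generators over an alphabet
of `d` letters: a permutation for each generator and `d` words over the generators and their
inverses; in a word, `(s, true)` stands for `s` and `(s, false)` for `s⁻¹`. -/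
structure FinData (d m : ℕ) where
  perm : Fin m → Equiv.Perm (Fin d)
  word : Fin m → Fin d → List (Fin m × Bool)

/-- The wreath recursion `Φ` on the free group with `Φ(s) = π_s (w_{s,1}, …, w_{s,d})`. -/
def FinData.Phi {d m : ℕ} (D : FinData d m) :
    FreeGroup (Fin m) →* Wr (Fin d) (FreeGroup (Fin m)) :=
  FreeGroup.lift fun s => ⟨D.perm s, fun x => FreeGroup.mk (D.word s x)⟩

/-- The input coding the finite data: `d`, `m`, and for each generator the list over the letters
`x` of the image of `x` and the word at `x`. -/
def FinData.code {d m : ℕ} (D : FinData d m) : ℕ × ℕ × List (List (ℕ × List (ℕ × Bool))) :=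
  (d, m, List.ofFn fun s => List.ofFn fun x =>
    ((D.perm s x).val, (D.word s x).map fun p => (p.1.val, p.2)))

/-! ### Proof -/

open Rec Machine Sim Contract

section Bridge

variable {X S : Type} (R : Rec X S)

theorem acts_eq (g : FreeGroup S) (w : List X) : acts R.phi g w = R.act w g := by
  induction w generalizing g with
  | nil => rfl
  | cons x w ih =>
    change R.pi g x :: acts R.phi (R.sc g x) w = _
    rw [ih]
    rfl

theorem sect_eq (g : FreeGroup S) (v : List X) : sect R.phi g v = R.secL g v := by
  induction v generalizing g with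
  | nil => rfl
  | cons x v ih => exact ih _

theorem mem_ker_iff_triv (g : FreeGroup S) : g ∈ ker R.phi ↔ R.Triv g := by
  rw [mem_ker]
  unfold Triv Same
  simp [acts_eq]

theorem mk_eq_iff (g h : FreeGroup S) :
    (g : FreeGroup S ⧸ ker R.phi) = h ↔ R.Same g h := by
  rw [eq_comm, QuotientGroup.eq_iff_div_mem, mem_ker_iff_triv, div_eq_mul_inv, same_iff_triv]
  constructor
  · intro h1
    have := h1.inv
    simpa using this
  · intro h1
    have := h1.inv
    simpa using this

theorem sect_mk (g : FreeGroup S) (v : List X) :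
    sect (induced R.phi) (g : FreeGroup S ⧸ ker R.phi) v =
      ((R.secL g v : FreeGroup S) : FreeGroup S ⧸ ker R.phi) := by
  induction v generalizing g with
  | nil => rfl
  | cons x v ih => exact ih _

theorem contracting_iff : Contracting (induced R.phi) ↔ ContrRep R := by
  constructor
  · rintro ⟨N, hN, h⟩
    refine ⟨Quotient.out '' N, hN.image _, ?_⟩
    intro g
    obtain ⟨n, hn⟩ := h g
    refine ⟨n, fun v hv => ⟨_, ⟨_, hn v hv, rfl⟩, ?_⟩⟩
    rw [← mk_eq_iff, sect_mk]
    exact (Quotient.out_eq _).symm
  · rintro ⟨N, hN, h⟩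
    refine ⟨(fun g : FreeGroup S => (g : FreeGroup S ⧸ ker R.phi)) '' N, hN.image _, ?_⟩
    intro g
    induction g using QuotientGroup.induction_on with
    | H g =>
      obtain ⟨n, hn⟩ := h g
      refine ⟨n, fun v hv => ?_⟩
      obtain ⟨k, hk, hs⟩ := hn v hv
      exact ⟨k, hk, by rw [sect_mk]; exact ((mk_eq_iff R _ _).2 hs).symm⟩

end Bridge

section Transport

/-- Two recursions that agree up to renaming letters and generators. -/
def Ren {X S X' S' : Type} (R : Rec X S) (R' : Rec X' S') (eX : X ≃ X') (eS : S ≃ S') : Prop :=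
  ∀ s x, R'.perm (eS s) (eX x) = eX (R.perm s x) ∧
    R'.sec (eS s) (eX x) = FreeGroup.map eS (R.sec s x)

variable {X S X' S' : Type} {R : Rec X S} {R' : Rec X' S'} {eX : X ≃ X'} {eS : S ≃ S'}

theorem map_symm_map (g : FreeGroup S) :
    FreeGroup.map eS.symm (FreeGroup.map eS g) = g := by
  rw [FreeGroup.map.comp]
  simp

theorem map_map_symm (g : FreeGroup S') :
    FreeGroup.map eS (FreeGroup.map eS.symm g) = g := by
  rw [FreeGroup.map.comp]
  simp

theorem Ren.symm (h : Ren R R' eX eS) : Ren R' R eX.symm eS.symm := by
  intro s x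
  obtain ⟨h1, h2⟩ := h (eS.symm s) (eX.symm x)
  rw [Equiv.apply_symm_apply, Equiv.apply_symm_apply] at h1 h2
  refine ⟨by rw [h1, Equiv.symm_apply_apply], by rw [h2, map_symm_map]⟩

theorem Ren.gen (h : Ren R R' eX eS) (g : FreeGroup S) : ∀ x,
    R'.pi (FreeGroup.map eS g) (eX x) = eX (R.pi g x) ∧
    R'.sc (FreeGroup.map eS g) (eX x) = FreeGroup.map eS (R.sc g x) := by
  induction g using FreeGroup.induction_on with
  | C1 => intro x; simp
  | of s => intro x; simpa using h s x
  | inv_of s ih =>
    intro x
    have key : (R'.pi (FreeGroup.map eS (FreeGroup.of s)))⁻¹ (eX x) =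
        eX ((R.pi (FreeGroup.of s))⁻¹ x) := by
      rw [Equiv.Perm.inv_eq_iff_eq, (ih _).1]
      congr 1
      exact (Equiv.apply_symm_apply _ _).symm
    rw [_root_.map_inv, pi_inv, sc_inv, key, (ih _).2, pi_inv, sc_inv, _root_.map_inv]
    exact ⟨rfl, rfl⟩
  | mul g k hg hk =>
    intro x
    rw [_root_.map_mul, pi_mul, sc_mul, Equiv.Perm.mul_apply, (hk x).1, (hk x).2, (hg _).1,
      (hg _).2, pi_mul, sc_mul, _root_.map_mul]
    exact ⟨rfl, rfl⟩

theorem Ren.act (h : Ren R R' eX eS) (w : List X) : ∀ g : FreeGroup S,
    R'.act (w.map eX) (FreeGroup.map eS g) = (R.act w g).map eX := by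
  induction w with
  | nil => intro g; rfl
  | cons x w ih =>
    intro g
    simp only [List.map_cons, Rec.act, (h.gen g x).1, (h.gen g x).2, ih]

theorem Ren.same (h : Ren R R' eX eS) {g k : FreeGroup S} (hs : R.Same g k) :
    R'.Same (FreeGroup.map eS g) (FreeGroup.map eS k) := by
  intro w
  have e : w = (w.map eX.symm).map eX := by simp
  rw [e, h.act, h.act, hs]

theorem Ren.secL (h : Ren R R' eX eS) (v : List X) : ∀ g : FreeGroup S,
    R'.secL (FreeGroup.map eS g) (v.map eX) = FreeGroup.map eS (R.secL g v) := by
  induction v with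
  | nil => intro g; rfl
  | cons x v ih =>
    intro g
    simp only [List.map_cons, Rec.secL, (h.gen g x).2, ih]

theorem Ren.contr (h : Ren R R' eX eS) (hc : ContrRep R) : ContrRep R' := by
  obtain ⟨N, hN, hc⟩ := hc
  refine ⟨FreeGroup.map eS '' N, hN.image _, ?_⟩
  intro g
  obtain ⟨n, hn⟩ := hc (FreeGroup.map eS.symm g)
  refine ⟨n, fun v hv => ?_⟩
  obtain ⟨k, hk, hs⟩ := hn (v.map eX.symm) (by simpa using hv)
  refine ⟨_, ⟨k, hk, rfl⟩, ?_⟩
  have h1 := h.same hs
  rw [← h.secL, map_map_symm] at h1
  simpa using h1

theorem Ren.contr_iff (h : Ren R R' eX eS) : ContrRep R ↔ ContrRep R' :=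
  ⟨h.contr, h.symm.contr⟩

end Transport

/-- A word representing an element. -/
theorem exists_word {S : Type} (g : FreeGroup S) : ∃ l, FreeGroup.mk l = g :=
  Quot.exists_rep g

theorem W_zero (k : ℕ) : W 0 k =
    FreeGroup.mk ((Gen.s, true) :: List.replicate k (Gen.b, true)) := by
  have h : ∀ k : ℕ, FreeGroup.mk (List.replicate k (Gen.b, true)) = gB ^ k := by
    intro k
    induction k with
    | zero => rfl
    | succ k ih =>
      rw [List.replicate_succ, pow_succ', ← ih]
      rfl
  unfold W
  rw [pow_zero, one_mul, ← h]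
  rfl

/-- No algorithm decides, from the finite data of a wreath recursion over at least two letters,
whether the group it defines is contracting. -/
theorem result : ¬ ∃ f : ℕ × ℕ × List (List (ℕ × List (ℕ × Bool))) → Bool, Computable f ∧
    ∀ (d m : ℕ) (D : FinData d m), 2 ≤ d →
      (f D.code = true ↔ Contracting (induced D.Phi)) := by
  classical
  rintro ⟨f, hf, hdec⟩
  obtain ⟨T, r, hr, hT⟩ := exists_sys
  apply hT
  -- the alphabet and the generators
  let eX : Lt T ⊕ Bool ≃ Fin (Fintype.card (Lt T ⊕ Bool)) := Fintype.equivFin _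
  let eS : Gen ⊕ Unit ≃ Fin (Fintype.card (Gen ⊕ Unit)) := Fintype.equivFin _
  have hd : 2 ≤ Fintype.card (Lt T ⊕ Bool) := by
    rw [Fintype.card_sum, Fintype.card_bool]
    omega
  choose wd hwd using fun g : FreeGroup (Gen ⊕ Unit) => exists_word g
  let wordOf : ℕ → Gen ⊕ Unit → Lt T ⊕ Bool → List ((Gen ⊕ Unit) × Bool) := fun n s x =>
    if s = Sum.inr () ∧ x = Sum.inr true then
      (Sum.inl Gen.s, true) :: List.replicate (r n) (Sum.inl Gen.b, true)
    else wd ((drec T 1).sec s x)
  have hword : ∀ n s x, FreeGroup.mk (wordOf n s x) = (drec T (W 0 (r n))).sec s x := by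
    intro n s x
    by_cases h : s = Sum.inr () ∧ x = Sum.inr true
    · obtain ⟨rfl, rfl⟩ := h
      simp only [wordOf, and_self, if_true]
      change _ = FreeGroup.map Sum.inl (W 0 (r n))
      rw [W_zero, FreeGroup.map.mk]
      simp
    · simp only [wordOf, if_neg h, hwd]
      rcases s with s | ⟨⟩ <;> rcases x with x | _ | _ <;> first | rfl | simp at h
  let D : ℕ → FinData (Fintype.card (Lt T ⊕ Bool)) (Fintype.card (Gen ⊕ Unit)) := fun n =>
    { perm := fun s => (eX.symm.trans ((drec T 1).perm (eS.symm s))).trans eX
      word := fun s x => (wordOf n (eS.symm s) (eX.symm x)).map fun p => (eS p.1, p.2) }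
  have hren : ∀ n, Ren (drec T (W 0 (r n)))
      (⟨(D n).perm, fun s x => FreeGroup.mk ((D n).word s x)⟩ : Rec _ _) eX eS := by
    intro n s x
    refine ⟨?_, ?_⟩
    · simp only [D, Equiv.trans_apply, Equiv.symm_apply_apply]
      rfl
    · simp only [D, Equiv.symm_apply_apply]
      rw [← hword, FreeGroup.map.mk]
  have key : ∀ n, f (D n).code = true ↔ Halts T 0 (r n) := by
    intro n
    rw [hdec _ _ (D n) hd, ← contr_iff_halts, (hren n).contr_iff, ← contracting_iff]
    rfl
  have hcode : Computable fun n => (D n).code := by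
    refine Computable.pair (Computable.const _) (Computable.pair (Computable.const _) ?_)
    refine Computable.list_ofFn fun s => Computable.list_ofFn fun x => ?_
    have hp : Computable fun n => ((D n).perm s x).val :=
      Computable.const (((D 0).perm s x).val)
    refine Computable.pair hp ?_
    by_cases h : eS.symm s = Sum.inr () ∧ eX.symm x = Sum.inr true
    · have e : (fun n => ((D n).word s x).map fun p => (p.1.val, p.2)) = fun n =>
          ((eS (Sum.inl Gen.s)).val, true) ::
            ((List.range (r n)).map fun _ => ((eS (Sum.inl Gen.b)).val, true)) := by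
        funext n
        simp only [D, wordOf, if_pos h, List.map_cons, List.map_replicate, List.map_const',
          List.length_range]
      rw [e]
      refine Computable.list_cons.comp (Computable.const _) ?_
      refine Computable.comp (f := fun k : ℕ => (List.range k).map fun _ =>
        ((eS (Sum.inl Gen.b)).val, true)) ?_ hr
      exact (Primrec.list_map Primrec.list_range (Primrec.const _).to₂).to_comp
    · have e : (fun n => ((D n).word s x).map fun p => (p.1.val, p.2)) = fun _ =>
          ((wd ((drec T 1).sec (eS.symm s) (eX.symm x))).map fun p => (eS p.1, p.2)).map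
            fun p => (p.1.val, p.2) := by
        funext n
        simp only [D, wordOf, if_neg h]
      rw [e]
      exact Computable.const _
  refine ComputablePred.computable_iff.2 ⟨fun n => f (D n).code, hf.comp hcode, ?_⟩
  funext n
  exact propext (key n).symm

end Pool.Agent.Results.MP_e16db3_al.Undecidable
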